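import Pool.Agent.Helper49.LC.St

/-!
Project LC (MP_58b586_gt), module EQV: the equivalence relation `Eq1`.
-/

set_option autoImplicit false

open scoped ContDiff

namespace Pool.Agent.Helper82.LC

open Pool.Agent.Helper14.LK
open Pool.Agent.Helper49.LC

private theorem tm_ti {n : ℕ} (a : EE n) {s : ℝ} (hs : s ≠ 0) (w : WW n) : ti a s (tm a s w) = w := by
  unfold ti tm
  rw [add_sub_cancel_left, smul_smul, inv_mul_cancel₀ hs, one_smul]

private theorem isHam {n : ℕ} (hn : 1 ≤ n) (hHAM : StHAM) {r : ℝ} {f g : WW n → WW n}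
    (h : HB (0 : WW n) r f g) :
    ∃ (H : ℝ → WW n → ℝ) (φ : ℝ → WW n → WW n), IsHamIsotopy H φ ∧
      (∀ t w, r ≤ ‖w‖ → H t w = 0) ∧ φ 1 = f := by
  obtain ⟨Φ, Φi, h1, h2, h3, h4, h5, h6, h7, h8, _⟩ := h
  obtain ⟨H, hH1, hH2, hH3⟩ := hHAM n hn Φ Φi r h1 h2 h4 h3 h5
    (fun t w hw => h7 t w (by rwa [sub_zero]))
  refine ⟨H, Φ, ⟨hH1, ⟨Metric.closedBall 0 r, isCompact_closedBall 0 r, ?_⟩, h6, hH3⟩, hH2, h8⟩
  intro t w hw
  apply hH2
  rw [Metric.mem_closedBall, dist_zero_right, not_le] at hw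
  exact hw.le

theorem hEQV (hGRP : StGRP) (hHMS : StHMS) (hHAM : StHAM) : StEQV := by
  obtain ⟨g1, g2, g3, g4, g5, g6, g7⟩ := hGRP
  refine ⟨?_, ?_, ?_, ?_, ?_, ?_, ?_, ?_⟩
  · intro n hn A B
    constructor
    · rintro ⟨H, φ, hH, hAB⟩
      obtain ⟨r, g, _, hr⟩ := hHMS n H φ hH
      exact ⟨r, φ 1, g, hr, hAB⟩
    · rintro ⟨r, f, g, hfg, hAB⟩
      obtain ⟨H, φ, hH, _, hf⟩ := isHam hn hHAM hfg
      exact ⟨H, φ, hH, by rw [hf]; exact hAB⟩
  · intro n A
    exact ⟨0, _, _, g1 n 0 0, Set.image_id' A⟩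
  · rintro n A B ⟨r, f, g, hfg, rfl⟩
    refine ⟨r, g, f, g4 n 0 r f g hfg, ?_⟩
    have hl := (g6 n 0 r f g hfg).1.left
    rw [Set.image_image]
    simp only [hl, Set.image_id']
  · rintro n A B C ⟨r, f, g, hfg, rfl⟩ ⟨r', f', g', hfg', rfl⟩
    have e1 : HB (0 : WW n) (max r r') f g :=
      g2 n 0 0 r (max r r') f g hfg (fun w hw => (le_max_left _ _).trans hw)
    have e2 : HB (0 : WW n) (max r r') f' g' :=
      g2 n 0 0 r' (max r r') f' g' hfg' (fun w hw => (le_max_right _ _).trans hw)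
    refine ⟨max r r', _, _, g3 n 0 (max r r') f' g' f g e2 e1, ?_⟩
    rw [Set.image_image]
  · rintro n A B a s hs ⟨r, f, g, hfg, rfl⟩
    have e := g5 n 0 r f g a s hs hfg
    have e' : HB (0 : WW n) (s * r + ‖a‖) (fun w => tm a s (f (ti a s w)))
        (fun w => tm a s (g (ti a s w))) := by
      refine g2 n _ 0 _ _ _ _ e ?_
      intro w hw
      rw [sub_zero] at hw
      have h1 : tm a s (0 : WW n) = (a, 0) := by
        unfold tm
        rw [smul_zero, add_zero]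
      rw [h1]
      have h2 : ‖((a, 0) : WW n)‖ = ‖a‖ := by
        rw [Prod.norm_def]
        simp
      have h3 := norm_sub_norm_le w ((a, 0) : WW n)
      rw [h2] at h3
      linarith
    refine ⟨_, _, _, e', ?_⟩
    rw [Set.image_image, Set.image_image]
    simp only [tm_ti a hs.ne']
  · intro n hn r f g hfg
    exact isHam hn hHAM hfg
  · intro n c r f g A hfg
    refine ⟨r + ‖c‖, f, g, g2 n c 0 r _ f g hfg ?_, rfl⟩
    intro w hw
    rw [sub_zero] at hw
    have h3 := norm_sub_norm_le w c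
    linarith
  · rintro n A B M hM ⟨r, f, g, hfg, rfl⟩
    obtain ⟨r', hr'⟩ := g7 n r f g M hM hfg
    refine ⟨r', _, _, hr', ?_⟩
    rw [Set.image_image, Set.image_image]
    simp only [ContinuousLinearEquiv.symm_apply_apply]

end Pool.Agent.Helper82.LC
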